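import Pool.Agent.FU3.Stmts

/-!
Squad FU3 (MP_a6aa4e_lc), row CNT: the number of extensions with `ℓ` stars.
-/

set_option autoImplicit false

open Finset

namespace Pool.Agent.FU3.H60

open Pool.Agent.FUR Pool.Agent.FU2 Pool.Agent.FU3

variable {N : ℕ}

/-- possible values at `v` of an extension of `r₀` with set of stars `K` -/
def val (r₀ : RS N) (K : Finset (Fin N)) (v : Fin N) : Finset (Option Bool) :=
  if v ∈ K then {none} else if r₀ v = none then {some true, some false} else {r₀ v}

theorem mem_pi_iff (r₀ : RS N) (K : Finset (Fin N)) (hK : K ⊆ stars r₀) (r : RS N) :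
    r ∈ Fintype.piFinset (val r₀ K) ↔ Ext r₀ r ∧ stars r = K := by
  rw [Fintype.mem_piFinset]
  constructor
  · intro h
    constructor
    · intro v hv
      have h1 := h v
      unfold val at h1
      have hvK : v ∉ K := by
        intro hk
        have := hK hk
        simp only [stars, mem_filter, mem_univ, true_and] at this
        exact hv this
      rw [if_neg hvK, if_neg hv] at h1
      exact Finset.mem_singleton.mp h1
    · ext v
      simp only [stars, mem_filter, mem_univ, true_and]
      have h1 := h v
      unfold val at h1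
      constructor
      · intro hr
        by_contra hvK
        rw [if_neg hvK] at h1
        by_cases h0 : r₀ v = none
        · rw [if_pos h0, hr] at h1
          simp at h1
        · rw [if_neg h0, hr] at h1
          exact h0 (Finset.mem_singleton.mp h1).symm
      · intro hvK
        rw [if_pos hvK] at h1
        exact Finset.mem_singleton.mp h1
  · rintro ⟨hE, hs⟩ v
    unfold val
    have hst : v ∈ K ↔ r v = none := by
      rw [← hs]
      simp [stars]
    by_cases hvK : v ∈ K
    · rw [if_pos hvK]
      exact Finset.mem_singleton.mpr (hst.mp hvK)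
    · rw [if_neg hvK]
      by_cases h0 : r₀ v = none
      · rw [if_pos h0]
        have hne : r v ≠ none := fun h => hvK (hst.mpr h)
        obtain ⟨b, hb⟩ := Option.ne_none_iff_exists'.mp hne
        rw [hb]
        cases b <;> simp
      · rw [if_neg h0]
        exact Finset.mem_singleton.mpr (hE v h0)

theorem card_pi (r₀ : RS N) (K : Finset (Fin N)) (hK : K ⊆ stars r₀) :
    (Fintype.piFinset (val r₀ K)).card = 2 ^ ((stars r₀).card - K.card) := by
  rw [Fintype.card_piFinset]
  have h1 : ∀ v : Fin N, (val r₀ K v).card = if v ∈ stars r₀ \ K then 2 else 1 := by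
    intro v
    unfold val
    by_cases hvK : v ∈ K
    · simp [hvK]
    · by_cases h0 : r₀ v = none
      · simp [hvK, h0, stars]
      · simp [hvK, h0, stars]
  rw [Finset.prod_congr rfl fun v _ => h1 v, Finset.prod_ite, Finset.prod_const_one, mul_one,
    Finset.prod_const]
  congr 1
  rw [Finset.filter_mem_eq_inter, Finset.univ_inter, Finset.card_sdiff_of_subset hK]

/-- Row CNT. -/
theorem cnt : CNTStmt := by
  intro N r₀ ℓ _
  have hset : {r : RS N | Ext r₀ r ∧ (stars r).card = ℓ} =
      (((powersetCard ℓ (stars r₀)).biUnion fun K => Fintype.piFinset (val r₀ K) :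
        Finset (RS N)) : Set (RS N)) := by
    ext r
    rw [Finset.mem_coe, Finset.mem_biUnion]
    constructor
    · rintro ⟨hE, hc⟩
      have hsub : stars r ⊆ stars r₀ := by
        intro v hv
        simp only [stars, mem_filter, mem_univ, true_and] at hv ⊢
        by_contra h0
        exact h0 ((hE v h0).symm.trans hv)
      exact ⟨stars r, Finset.mem_powersetCard.mpr ⟨hsub, hc⟩,
        (mem_pi_iff r₀ _ hsub r).mpr ⟨hE, rfl⟩⟩
    · rintro ⟨K, hK, hr⟩
      rw [Finset.mem_powersetCard] at hK
      obtain ⟨hE, hs⟩ := (mem_pi_iff r₀ K hK.1 r).mp hr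
      exact ⟨hE, by rw [hs]; exact hK.2⟩
  rw [hset, Set.ncard_coe_finset, Finset.card_biUnion]
  · rw [Finset.sum_congr rfl (g := fun _ => 2 ^ ((stars r₀).card - ℓ)), Finset.sum_const,
      Finset.card_powersetCard, smul_eq_mul]
    intro K hK
    rw [Finset.mem_powersetCard] at hK
    rw [card_pi r₀ K hK.1, hK.2]
  · intro K hK K' hK' hne
    rw [Finset.mem_coe, Finset.mem_powersetCard] at hK hK'
    rw [Function.onFun, Finset.disjoint_left]
    intro r hr hr'
    have h1 := ((mem_pi_iff r₀ K hK.1 r).mp hr).2
    have h2 := ((mem_pi_iff r₀ K' hK'.1 r).mp hr').2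
    exact hne (h1.symm.trans h2)

end Pool.Agent.FU3.H60
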